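import Pool.Agent.W633.LT.Stm

/-!
# `E q` is eventually constant and `deg 1 = deg (-1)` (task LG-STAB)
-/

set_option autoImplicit false

namespace Pool.Agent.W947.LG.Stab

open W633.LT W633.LT.Fam

section gen

variable {k : Type} [Field k]

/-- additivity of the index for Cech differentials -/
lemma ind_seq (h1 : IndAdd) {A₁ A₂ A₀ B₁ B₂ B₀ C₁ C₂ C₀ : Type}
    [AddCommGroup A₁] [AddCommGroup A₂] [AddCommGroup A₀]
    [AddCommGroup B₁] [AddCommGroup B₂] [AddCommGroup B₀]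
    [AddCommGroup C₁] [AddCommGroup C₂] [AddCommGroup C₀]
    [Module k A₁] [Module k A₂] [Module k A₀] [Module k B₁] [Module k B₂] [Module k B₀]
    [Module k C₁] [Module k C₂] [Module k C₀]
    (rA₁ : A₁ →ₗ[k] A₀) (rA₂ : A₂ →ₗ[k] A₀) (sA : A₀ →ₗ[k] A₀)
    (rB₁ : B₁ →ₗ[k] B₀) (rB₂ : B₂ →ₗ[k] B₀) (sB : B₀ →ₗ[k] B₀)
    (rC₁ : C₁ →ₗ[k] C₀) (rC₂ : C₂ →ₗ[k] C₀) (sC : C₀ →ₗ[k] C₀)
    (i₁ : A₁ →ₗ[k] B₁) (i₂ : A₂ →ₗ[k] B₂) (i₀ : A₀ →ₗ[k] B₀)
    (p₁ : B₁ →ₗ[k] C₁) (p₂ : B₂ →ₗ[k] C₂) (p₀ : B₀ →ₗ[k] C₀)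
    (hi₁ : Function.Injective i₁) (hi₂ : Function.Injective i₂) (hi₀ : Function.Injective i₀)
    (he₁ : Function.Exact i₁ p₁) (he₂ : Function.Exact i₂ p₂) (he₀ : Function.Exact i₀ p₀)
    (hp₁ : Function.Surjective p₁) (hp₂ : Function.Surjective p₂) (hp₀ : Function.Surjective p₀)
    (c₁ : ∀ x, i₀ (rA₁ x) = rB₁ (i₁ x)) (c₂ : ∀ x, i₀ (rA₂ x) = rB₂ (i₂ x))
    (c₀ : ∀ x, i₀ (sA x) = sB (i₀ x))
    (d₁ : ∀ x, p₀ (rB₁ x) = rC₁ (p₁ x)) (d₂ : ∀ x, p₀ (rB₂ x) = rC₂ (p₂ x))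
    (d₀ : ∀ x, p₀ (sB x) = sC (p₀ x))
    (fA : Fred (rA₁ ∘ₗ LinearMap.fst k A₁ A₂ - sA ∘ₗ rA₂ ∘ₗ LinearMap.snd k A₁ A₂))
    (fB : Fred (rB₁ ∘ₗ LinearMap.fst k B₁ B₂ - sB ∘ₗ rB₂ ∘ₗ LinearMap.snd k B₁ B₂))
    (fC : Fred (rC₁ ∘ₗ LinearMap.fst k C₁ C₂ - sC ∘ₗ rC₂ ∘ₗ LinearMap.snd k C₁ C₂)) :
    ind (rB₁ ∘ₗ LinearMap.fst k B₁ B₂ - sB ∘ₗ rB₂ ∘ₗ LinearMap.snd k B₁ B₂) =
      ind (rA₁ ∘ₗ LinearMap.fst k A₁ A₂ - sA ∘ₗ rA₂ ∘ₗ LinearMap.snd k A₁ A₂) +
      ind (rC₁ ∘ₗ LinearMap.fst k C₁ C₂ - sC ∘ₗ rC₂ ∘ₗ LinearMap.snd k C₁ C₂) := by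
  refine h1 k (A₁ × A₂) (B₁ × B₂) (C₁ × C₂) A₀ B₀ C₀ (LinearMap.prodMap i₁ i₂)
    (LinearMap.prodMap p₁ p₂) i₀ p₀ _ _ _ ?_ ?_ ?_ hi₀ he₀ hp₀ ?_ ?_ fA fB fC
  · rintro ⟨a, b⟩ ⟨a', b'⟩ h
    simp only [LinearMap.prodMap_apply, Prod.mk.injEq] at h
    exact Prod.ext (hi₁ h.1) (hi₂ h.2)
  · rintro ⟨a, b⟩
    simp only [LinearMap.prodMap_apply, Prod.mk_eq_zero, Set.mem_range, Prod.exists,
      Prod.mk.injEq]
    constructor
    · rintro ⟨h, h'⟩
      obtain ⟨x, hx⟩ := (he₁ a).mp h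
      obtain ⟨y, hy⟩ := (he₂ b).mp h'
      exact ⟨x, y, hx, hy⟩
    · rintro ⟨x, y, hx, hy⟩
      exact ⟨(he₁ a).mpr ⟨x, hx⟩, (he₂ b).mpr ⟨y, hy⟩⟩
  · rintro ⟨a, b⟩
    obtain ⟨x, hx⟩ := hp₁ a
    obtain ⟨y, hy⟩ := hp₂ b
    exact ⟨(x, y), by simp [hx, hy]⟩
  · apply LinearMap.ext
    rintro ⟨a, b⟩
    simp [c₁, c₂, c₀]
  · apply LinearMap.ext
    rintro ⟨a, b⟩
    simp [d₁, d₂, d₀]

/-- invariance of the index under isomorphisms -/
lemma ind_iso (h1 : IndAdd) {V W V' W' : Type} [AddCommGroup V] [AddCommGroup W]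
    [AddCommGroup V'] [AddCommGroup W'] [Module k V] [Module k W] [Module k V'] [Module k W']
    (f : V →ₗ[k] W) (f' : V' →ₗ[k] W') (e : V →ₗ[k] V') (e' : W →ₗ[k] W')
    (he : Function.Bijective e) (he' : Function.Bijective e') (hc : e' ∘ₗ f = f' ∘ₗ e)
    (hf : Fred f) (hf' : Fred f') : ind f' = ind f := by
  have h0 : Fred (0 : PUnit →ₗ[k] PUnit) := ⟨inferInstance, inferInstance⟩
  have hi0 : ind (0 : PUnit →ₗ[k] PUnit) = 0 := by
    unfold ind
    have a1 : Module.finrank k (LinearMap.ker (0 : PUnit →ₗ[k] PUnit)) = 0 :=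
      Module.finrank_zero_of_subsingleton
    have a2 : Module.finrank k (PUnit ⧸ LinearMap.range (0 : PUnit →ₗ[k] PUnit)) = 0 :=
      Module.finrank_zero_of_subsingleton
    rw [a1, a2]
    rfl
  have h := h1 k V V' PUnit W W' PUnit e 0 e' 0 f f' 0 he.1
    (fun x => ⟨fun _ => he.2 x, fun _ => rfl⟩) (fun x => ⟨0, Subsingleton.elim _ _⟩) he'.1
    (fun x => ⟨fun _ => he'.2 x, fun _ => rfl⟩) (fun x => ⟨0, Subsingleton.elim _ _⟩) hc
    (by ext) hf hf' h0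
  rw [h, hi0, add_zero]

end gen

section fam

variable {k : Type} [Field k] (N : Fam k)

lemma tt (b : SignType) (m n : ℤ) (v : N.V b 0) :
    N.act b 0 0 m (N.act b 0 0 n v) = N.act b 0 0 (m + n) v := by
  rw [← N.act_add b 0 0 m 0 n (by simp) (by simp) (by simp) (by simp)]
  simp

lemma res_t (b c : SignType) (n : ℤ) (hn : 0 ≤ (c : ℤ) * n) (v : N.V b c) :
    N.res (Sub.refl b) (Sub.zero c) (N.act b c 0 n v) =
      N.act b 0 0 n (N.res (Sub.refl b) (Sub.zero c) v) :=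
  N.res_act _ _ 0 n (by simp) hn v

lemma mem_sub (b : SignType) (p q : ℤ) (x : N.V b 0) :
    x ∈ N.sub b p q ↔ ∃ (u : N.V b 1) (w : N.V b (-1)),
      N.act b 0 0 p (N.res (Sub.refl b) (Sub.zero 1) u) +
        N.act b 0 0 (-q) (N.res (Sub.refl b) (Sub.zero (-1)) w) = x := by
  unfold Fam.sub
  rw [Submodule.mem_sup]
  constructor
  · rintro ⟨_, ⟨_, ⟨u, rfl⟩, rfl⟩, _, ⟨_, ⟨w, rfl⟩, rfl⟩, h⟩
    exact ⟨u, w, h⟩
  · rintro ⟨u, w, h⟩
    exact ⟨_, ⟨_, ⟨u, rfl⟩, rfl⟩, _, ⟨_, ⟨w, rfl⟩, rfl⟩, h⟩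

/-- multiplication by `t ^ e` -/
def mT (b : SignType) (e p q p' q' : ℤ)
    (h : N.sub b p q ≤ (N.sub b p' q').comap (N.act b 0 0 e)) : N.H b p q →ₗ[k] N.H b p' q' :=
  Submodule.mapQ _ _ (N.act b 0 0 e) h

/-- `v ↦ t ^ e res v` -/
def iL (b c : SignType) (e p q : ℤ) (h : N.subL b c ≤
    (N.sub b p q).comap (N.act b 0 0 e ∘ₗ N.res (Sub.refl b) (Sub.zero c))) :
    N.L b c →ₗ[k] N.H b p q :=
  Submodule.mapQ _ _ (N.act b 0 0 e ∘ₗ N.res (Sub.refl b) (Sub.zero c)) h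

lemma resH_mT (b : SignType) (e p q p' q' : ℤ)
    (h : N.sub b p q ≤ (N.sub b p' q').comap (N.act b 0 0 e))
    (h0 : N.sub 0 p q ≤ (N.sub 0 p' q').comap (N.act 0 0 0 e)) (x : N.H b p q) :
    mT N 0 e p q p' q' h0 (N.resH b p q x) = N.resH b p' q' (mT N b e p q p' q' h x) := by
  induction x using Submodule.Quotient.induction_on with
  | H v =>
    simp only [mT, Fam.resH, Submodule.mapQ_apply]
    rw [N.res_act _ _ 0 e (by simp) (by simp)]

lemma sH_mT (e p q p' q' : ℤ)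
    (h0 : N.sub 0 p q ≤ (N.sub 0 p' q').comap (N.act 0 0 0 e)) (x : N.H 0 p q) :
    mT N 0 e p q p' q' h0 (N.sH p q x) = N.sH p' q' (mT N 0 e p q p' q' h0 x) := by
  induction x using Submodule.Quotient.induction_on with
  | H v =>
    simp only [mT, Fam.sH, Submodule.mapQ_apply]
    rw [← N.act_add 0 0 0 e (-1) 0 (by simp) (by simp) (by simp) (by simp),
      ← N.act_add 0 0 (-1) 0 0 e (by simp) (by simp) (by simp) (by simp)]
    simp

lemma resH_iL (b c : SignType) (e p q : ℤ) (h : N.subL b c ≤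
    (N.sub b p q).comap (N.act b 0 0 e ∘ₗ N.res (Sub.refl b) (Sub.zero c)))
    (h0 : N.subL 0 c ≤
    (N.sub 0 p q).comap (N.act 0 0 0 e ∘ₗ N.res (Sub.refl 0) (Sub.zero c))) (x : N.L b c) :
    iL N 0 c e p q h0 (N.resL b c x) = N.resH b p q (iL N b c e p q h x) := by
  induction x using Submodule.Quotient.induction_on with
  | H v =>
    simp only [iL, Fam.resH, Fam.resL, Submodule.mapQ_apply, LinearMap.comp_apply]
    rw [N.res_act _ _ 0 e (by simp) (by simp), N.res_comp, N.res_comp]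

lemma sH_iL (c : SignType) (e p q : ℤ)
    (h0 : N.subL 0 c ≤
    (N.sub 0 p q).comap (N.act 0 0 0 e ∘ₗ N.res (Sub.refl 0) (Sub.zero c))) (x : N.L 0 c) :
    iL N 0 c e p q h0 (N.sL c x) = N.sH p q (iL N 0 c e p q h0 x) := by
  induction x using Submodule.Quotient.induction_on with
  | H v =>
    simp only [iL, Fam.sH, Fam.sL, Submodule.mapQ_apply, LinearMap.comp_apply]
    rw [N.res_act _ _ (-1) 0 (by simp) (by simp),
      ← N.act_add 0 0 0 e (-1) 0 (by simp) (by simp) (by simp) (by simp),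
      ← N.act_add 0 0 (-1) 0 0 e (by simp) (by simp) (by simp) (by simp)]
    simp

/-! ### inclusions -/

lemma act_minus (b : SignType) (w : N.V b (-1)) :
    N.res (Sub.refl b) (Sub.zero (-1)) (N.act b (-1) 0 (-1) w) =
      N.act b 0 0 (-1) (N.res (Sub.refl b) (Sub.zero (-1)) w) :=
  res_t N b (-1) (-1) (by simp) w

lemma act_plus (b : SignType) (u : N.V b 1) :
    N.res (Sub.refl b) (Sub.zero 1) (N.act b 1 0 1 u) =
      N.act b 0 0 1 (N.res (Sub.refl b) (Sub.zero 1) u) :=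
  res_t N b 1 1 (by simp) u

lemma sub_q (b : SignType) (q : ℤ) :
    N.sub b 0 (q + 1) ≤ (N.sub b 0 q).comap (N.act b 0 0 0) := by
  intro x hx
  rw [mem_sub] at hx
  obtain ⟨u, w, rfl⟩ := hx
  rw [Submodule.mem_comap, mem_sub]
  refine ⟨u, N.act b (-1) 0 (-1) w, ?_⟩
  rw [act_minus, tt, map_add, tt, tt]
  congr 2
  ring_nf

lemma sub_p (b : SignType) (q : ℤ) :
    N.sub b 1 q ≤ (N.sub b 0 q).comap (N.act b 0 0 0) := by
  intro x hx
  rw [mem_sub] at hx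
  obtain ⟨u, w, rfl⟩ := hx
  rw [Submodule.mem_comap, mem_sub]
  refine ⟨N.act b 1 0 1 u, w, ?_⟩
  rw [act_plus, tt, map_add, tt, tt]
  congr 2
  ring_nf

lemma sub_t (b : SignType) (q : ℤ) :
    N.sub b 1 q ≤ (N.sub b 0 (q + 1)).comap (N.act b 0 0 (-1)) := by
  intro x hx
  rw [mem_sub] at hx
  obtain ⟨u, w, rfl⟩ := hx
  rw [Submodule.mem_comap, mem_sub]
  refine ⟨u, w, ?_⟩
  rw [map_add, tt, tt]
  congr 2
  ring_nf

lemma sub_t' (b : SignType) (q : ℤ) :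
    N.sub b 0 (q + 1) ≤ (N.sub b 1 q).comap (N.act b 0 0 1) := by
  intro x hx
  rw [mem_sub] at hx
  obtain ⟨u, w, rfl⟩ := hx
  rw [Submodule.mem_comap, mem_sub]
  refine ⟨u, w, ?_⟩
  rw [map_add, tt, tt]
  congr 2
  ring_nf

lemma subL_minus (b : SignType) (q : ℤ) : N.subL b (-1) ≤
    (N.sub b 0 (q + 1)).comap (N.act b 0 0 (-q) ∘ₗ N.res (Sub.refl b) (Sub.zero (-1))) := by
  rintro _ ⟨y, rfl⟩
  rw [Submodule.mem_comap, mem_sub, LinearMap.comp_apply]
  refine ⟨0, y, ?_⟩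
  have : N.res (Sub.refl b) (Sub.zero (-1)) (N.act b (-1) 0 (((-1 : SignType)) : ℤ) y) =
      N.act b 0 0 (-1) (N.res (Sub.refl b) (Sub.zero (-1)) y) := act_minus N b y
  rw [this, tt, map_zero, map_zero, zero_add]
  congr 2
  ring

lemma subL_plus (b : SignType) (q : ℤ) : N.subL b 1 ≤
    (N.sub b 1 q).comap (N.act b 0 0 0 ∘ₗ N.res (Sub.refl b) (Sub.zero 1)) := by
  rintro _ ⟨y, rfl⟩
  rw [Submodule.mem_comap, mem_sub, LinearMap.comp_apply]
  refine ⟨y, 0, ?_⟩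
  have : N.res (Sub.refl b) (Sub.zero 1) (N.act b 1 0 ((1 : SignType) : ℤ) y) =
      N.act b 0 0 1 (N.res (Sub.refl b) (Sub.zero 1) y) := act_plus N b y
  rw [this, tt, map_zero, map_zero, add_zero]
  simp

lemma mT_surj (b : SignType) (e p q p' q' : ℤ)
    (h : N.sub b p q ≤ (N.sub b p' q').comap (N.act b 0 0 e)) :
    Function.Surjective (mT N b e p q p' q' h) := by
  intro x
  induction x using Submodule.Quotient.induction_on with
  | H v =>
    refine ⟨Submodule.Quotient.mk (N.act b 0 0 (-e) v), ?_⟩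
    simp only [mT, Submodule.mapQ_apply]
    rw [tt, add_neg_cancel, N.act_zero]

/-! ### exactness -/

variable {N}

lemma inj_minus (hN : N.Good) {q : ℤ}
    (hq : ∀ (b : SignType) (x : N.V b 1) (y : N.V b (-1)),
      N.res (Sub.refl b) (Sub.zero 1) x =
        N.act b 0 0 (-q) (N.res (Sub.refl b) (Sub.zero (-1)) y) → x = 0) (b : SignType) :
    Function.Injective (iL N b (-1) (-q) 0 (q + 1) (subL_minus N b q)) := by
  rw [injective_iff_map_eq_zero]
  intro x hx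
  induction x using Submodule.Quotient.induction_on with
  | H v =>
    simp only [iL, Submodule.mapQ_apply, LinearMap.comp_apply] at hx
    rw [Submodule.Quotient.mk_eq_zero, mem_sub] at hx
    obtain ⟨u, w, h⟩ := hx
    rw [N.act_zero] at h
    have h2 : N.res (Sub.refl b) (Sub.zero 1) u = N.act b 0 0 (-q)
        (N.res (Sub.refl b) (Sub.zero (-1)) (v - N.act b (-1) 0 (-1) w)) := by
      rw [map_sub, map_sub, act_minus, tt, ← h]
      have : -q + -1 = -(q + 1) := by ring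
      rw [this]
      abel
    have h3 := hq b u _ h2
    subst h3
    rw [map_zero] at h2
    have h4 := congrArg (N.act b 0 0 q) h2.symm
    rw [tt, add_neg_cancel, N.act_zero, map_zero] at h4
    have h5 : v - N.act b (-1) 0 (-1) w = 0 :=
      hN.inj (Sub.refl b) (Sub.zero (-1)) (by rw [h4, map_zero])
    rw [Submodule.Quotient.mk_eq_zero]
    exact ⟨w, (sub_eq_zero.mp h5).symm⟩

lemma exact_minus (q : ℤ) (b : SignType) :
    Function.Exact (iL N b (-1) (-q) 0 (q + 1) (subL_minus N b q))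
      (mT N b 0 0 (q + 1) 0 q (sub_q N b q)) := by
  intro x
  induction x using Submodule.Quotient.induction_on with
  | H v =>
    simp only [mT, Submodule.mapQ_apply]
    rw [N.act_zero, Submodule.Quotient.mk_eq_zero, mem_sub]
    constructor
    · rintro ⟨u, w, h⟩
      refine ⟨Submodule.Quotient.mk w, ?_⟩
      simp only [iL, Submodule.mapQ_apply, LinearMap.comp_apply]
      rw [Submodule.Quotient.eq, mem_sub]
      refine ⟨-u, 0, ?_⟩
      rw [← h, map_neg, map_neg, map_zero, map_zero, add_zero]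
      abel
    · rintro ⟨y, hy⟩
      induction y using Submodule.Quotient.induction_on with
      | H w =>
        simp only [iL, Submodule.mapQ_apply, LinearMap.comp_apply] at hy
        rw [Submodule.Quotient.eq, mem_sub] at hy
        obtain ⟨u, w', h⟩ := hy
        refine ⟨-u, w - N.act b (-1) 0 (-1) w', ?_⟩
        rw [map_sub, map_sub, act_minus, tt, map_neg, map_neg]
        have : -q + -1 = -(q + 1) := by ring
        rw [this]
        have h2 : v = N.act b 0 0 (-q) (N.res (Sub.refl b) (Sub.zero (-1)) w) -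
            (N.act b 0 0 0 (N.res (Sub.refl b) (Sub.zero 1) u) +
            N.act b 0 0 (-(q + 1)) (N.res (Sub.refl b) (Sub.zero (-1)) w')) := by
          rw [h]
          abel
        rw [h2]
        abel

lemma inj_plus {q : ℤ}
    (hq : ∀ (b : SignType) (x : N.V b 1) (y : N.V b (-1)),
      N.res (Sub.refl b) (Sub.zero 1) x =
        N.act b 0 0 (-q) (N.res (Sub.refl b) (Sub.zero (-1)) y) → x = 0) (b : SignType) :
    Function.Injective (iL N b 1 0 1 q (subL_plus N b q)) := by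
  rw [injective_iff_map_eq_zero]
  intro x hx
  induction x using Submodule.Quotient.induction_on with
  | H v =>
    simp only [iL, Submodule.mapQ_apply, LinearMap.comp_apply] at hx
    rw [Submodule.Quotient.mk_eq_zero, mem_sub] at hx
    obtain ⟨u, w, h⟩ := hx
    rw [N.act_zero] at h
    have h2 : N.res (Sub.refl b) (Sub.zero 1) (v - N.act b 1 0 1 u) = N.act b 0 0 (-q)
        (N.res (Sub.refl b) (Sub.zero (-1)) w) := by
      rw [map_sub, act_plus, ← h]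
      abel
    have h3 := hq b _ _ h2
    rw [Submodule.Quotient.mk_eq_zero]
    exact ⟨u, (sub_eq_zero.mp h3).symm⟩

lemma exact_plus (q : ℤ) (b : SignType) :
    Function.Exact (iL N b 1 0 1 q (subL_plus N b q)) (mT N b 0 1 q 0 q (sub_p N b q)) := by
  intro x
  induction x using Submodule.Quotient.induction_on with
  | H v =>
    simp only [mT, Submodule.mapQ_apply]
    rw [N.act_zero, Submodule.Quotient.mk_eq_zero, mem_sub]
    constructor
    · rintro ⟨u, w, h⟩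
      refine ⟨Submodule.Quotient.mk u, ?_⟩
      simp only [iL, Submodule.mapQ_apply, LinearMap.comp_apply]
      rw [Submodule.Quotient.eq, mem_sub]
      refine ⟨0, -w, ?_⟩
      rw [← h, map_neg, map_neg, map_zero, map_zero, zero_add]
      abel
    · rintro ⟨y, hy⟩
      induction y using Submodule.Quotient.induction_on with
      | H w =>
        simp only [iL, Submodule.mapQ_apply, LinearMap.comp_apply] at hy
        rw [Submodule.Quotient.eq, mem_sub] at hy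
        obtain ⟨u, w', h⟩ := hy
        refine ⟨w - N.act b 1 0 1 u, -w', ?_⟩
        rw [map_sub, map_sub, act_plus, tt, map_neg, map_neg, zero_add]
        have h2 : v = N.act b 0 0 0 (N.res (Sub.refl b) (Sub.zero 1) w) -
            (N.act b 0 0 1 (N.res (Sub.refl b) (Sub.zero 1) u) +
            N.act b 0 0 (-q) (N.res (Sub.refl b) (Sub.zero (-1)) w')) := by
          rw [h]
          abel
        rw [h2]
        abel

end fam

theorem stab (h1 : IndAdd) (h2 : FamFred) : FamStab := by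
  intro k _ N hN
  obtain ⟨q0, hsep⟩ := hN.sep
  obtain ⟨fH, fL⟩ := h2 k N hN
  have key1 : ∀ q ≥ q0, ind (N.DH 0 (q + 1)) = N.deg (-1) + ind (N.DH 0 q) := by
    intro q hq
    exact ind_seq h1 _ _ _ _ _ _ _ _ _
      (iL N 1 (-1) (-q) 0 (q + 1) (subL_minus N 1 q))
      (iL N (-1) (-1) (-q) 0 (q + 1) (subL_minus N (-1) q))
      (iL N 0 (-1) (-q) 0 (q + 1) (subL_minus N 0 q))
      (mT N 1 0 0 (q + 1) 0 q (sub_q N 1 q))
      (mT N (-1) 0 0 (q + 1) 0 q (sub_q N (-1) q))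
      (mT N 0 0 0 (q + 1) 0 q (sub_q N 0 q))
      (inj_minus hN (hsep q hq) _) (inj_minus hN (hsep q hq) _) (inj_minus hN (hsep q hq) _)
      (exact_minus q _) (exact_minus q _) (exact_minus q _)
      (mT_surj N _ _ _ _ _ _ _) (mT_surj N _ _ _ _ _ _ _) (mT_surj N _ _ _ _ _ _ _)
      (resH_iL N 1 (-1) _ _ _ _ _) (resH_iL N (-1) (-1) _ _ _ _ _) (sH_iL N (-1) _ _ _ _)
      (resH_mT N 1 _ _ _ _ _ _ _) (resH_mT N (-1) _ _ _ _ _ _ _) (sH_mT N _ _ _ _ _ _)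
      (fL (-1)) (fH 0 (q + 1)) (fH 0 q)
  have key2 : ∀ q ≥ q0, ind (N.DH 1 q) = N.deg 1 + ind (N.DH 0 q) := by
    intro q hq
    exact ind_seq h1 _ _ _ _ _ _ _ _ _
      (iL N 1 1 0 1 q (subL_plus N 1 q))
      (iL N (-1) 1 0 1 q (subL_plus N (-1) q))
      (iL N 0 1 0 1 q (subL_plus N 0 q))
      (mT N 1 0 1 q 0 q (sub_p N 1 q))
      (mT N (-1) 0 1 q 0 q (sub_p N (-1) q))
      (mT N 0 0 1 q 0 q (sub_p N 0 q))
      (inj_plus (hsep q hq) _) (inj_plus (hsep q hq) _) (inj_plus (hsep q hq) _)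
      (exact_plus q _) (exact_plus q _) (exact_plus q _)
      (mT_surj N _ _ _ _ _ _ _) (mT_surj N _ _ _ _ _ _ _) (mT_surj N _ _ _ _ _ _ _)
      (resH_iL N 1 1 _ _ _ _ _) (resH_iL N (-1) 1 _ _ _ _ _) (sH_iL N 1 _ _ _ _)
      (resH_mT N 1 _ _ _ _ _ _ _) (resH_mT N (-1) _ _ _ _ _ _ _) (sH_mT N _ _ _ _ _ _)
      (fL 1) (fH 1 q) (fH 0 q)
  have mT_inj : ∀ (b : SignType) (q : ℤ), Function.Injective (mT N b (-1) 1 q 0 (q + 1)
      (sub_t N b q)) := by
    intro b q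
    rw [injective_iff_map_eq_zero]
    intro x hx
    induction x using Submodule.Quotient.induction_on with
    | H v =>
      simp only [mT, Submodule.mapQ_apply] at hx
      rw [Submodule.Quotient.mk_eq_zero] at hx ⊢
      have := sub_t' N b q hx
      rw [Submodule.mem_comap, tt] at this
      simpa [N.act_zero] using this
  have key3 : ∀ q : ℤ, ind (N.DH 0 (q + 1)) = ind (N.DH 1 q) := by
    intro q
    refine ind_iso h1 (N.DH 1 q) (N.DH 0 (q + 1))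
      (LinearMap.prodMap (mT N 1 (-1) 1 q 0 (q + 1) (sub_t N 1 q))
        (mT N (-1) (-1) 1 q 0 (q + 1) (sub_t N (-1) q)))
      (mT N 0 (-1) 1 q 0 (q + 1) (sub_t N 0 q)) ?_ ?_ ?_ (fH 1 q) (fH 0 (q + 1))
    · constructor
      · rintro ⟨a, b⟩ ⟨a', b'⟩ h
        simp only [LinearMap.prodMap_apply, Prod.mk.injEq] at h
        exact Prod.ext (mT_inj _ _ h.1) (mT_inj _ _ h.2)
      · rintro ⟨a, b⟩
        obtain ⟨x, hx⟩ := mT_surj N 1 (-1) 1 q 0 (q + 1) (sub_t N 1 q) a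
        obtain ⟨y, hy⟩ := mT_surj N (-1) (-1) 1 q 0 (q + 1) (sub_t N (-1) q) b
        exact ⟨(x, y), by simp [hx, hy]⟩
    · exact ⟨mT_inj _ _, mT_surj N _ _ _ _ _ _ _⟩
    · apply LinearMap.ext
      rintro ⟨a, b⟩
      simp only [Fam.DH, LinearMap.comp_apply, LinearMap.sub_apply, LinearMap.fst_apply,
        LinearMap.snd_apply, LinearMap.prodMap_apply, map_sub]
      rw [resH_mT N 1 (-1) 1 q 0 (q + 1) (sub_t N 1 q) (sub_t N 0 q),
        sH_mT N (-1) 1 q 0 (q + 1) (sub_t N 0 q),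
        resH_mT N (-1) (-1) 1 q 0 (q + 1) (sub_t N (-1) q) (sub_t N 0 q)]
  have hdeg : N.deg 1 = N.deg (-1) := by
    have a := key1 q0 le_rfl
    have b := key2 q0 le_rfl
    have c := key3 q0
    linarith
  have hstep : ∀ q ≥ q0, N.E (q + 1) = N.E q := by
    intro q hq
    have a := key1 q hq
    unfold Fam.E
    rw [a, hdeg]
    ring
  have hconst : ∀ q ≥ q0, N.E q = N.E q0 := by
    intro q hq
    induction q, hq using Int.leInduction with
    | base => rfl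
    | succ q hq ih => rw [hstep q hq, ih]
  have hex : ∃ z : ℤ, ∃ q0 : ℤ, ∀ q ≥ q0, N.E q = z := ⟨N.E q0, q0, hconst⟩
  refine ⟨⟨q0, fun q hq => ?_⟩, hdeg⟩
  have he : N.e = hex.choose := by
    unfold Fam.e
    rw [dif_pos hex]
  obtain ⟨q1, h1'⟩ := hex.choose_spec
  rw [he, hconst q hq, ← h1' (max q0 q1) (le_max_right _ _), hconst _ (le_max_left _ _)]

end Pool.Agent.W947.LG.Stab
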